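import Pool.Agent.U630.CC.NoLabel

/-!
A convex embedding of a graph into the Cayley graph of a right-angled Artin group gives a special
labelling of its edges.
-/

set_option autoImplicit false
set_option linter.unusedSectionVars false

namespace Pool.Agent.U630.CC

section Raag

variable {n : ℕ} {Γ : SimpleGraph (Fin n)} {R : Set (FreeGroup (Fin n))}
  (hR : R = {r | ∃ i j : Fin n, Γ.Adj i j ∧
        r = FreeGroup.of i * FreeGroup.of j * (FreeGroup.of i)⁻¹ * (FreeGroup.of j)⁻¹})

/-- `g` and `h` are joined by an edge with label `i`. -/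
def Lab (g h : PresentedGroup R) (i : Fin n) : Prop :=
  h = g * PresentedGroup.of i ∨ g = h * PresentedGroup.of i

lemma Lab.symm {g h : PresentedGroup R} {i : Fin n} (hl : Lab g h i) : Lab h g i := hl.elim Or.inr Or.inl

include hR in
/-- Homomorphisms out of the group. -/
lemma exists_hom {G : Type*} [Group G] (φ : Fin n → G)
    (hφ : ∀ i j, Γ.Adj i j → φ i * φ j = φ j * φ i) :
    ∃ F : PresentedGroup R →* G, ∀ i, F (PresentedGroup.of i) = φ i := by
  refine ⟨PresentedGroup.toGroup (f := φ) ?_, fun i => ?_⟩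
  · intro r hr
    rw [hR] at hr
    obtain ⟨i, j, hij, rfl⟩ := hr
    simp only [map_mul, map_inv, FreeGroup.lift_apply_of]
    rw [hφ i j hij]
    group
  · exact PresentedGroup.toGroup.of _

include hR in
/-- The exponent of a generator. -/
lemma exists_cnt (t : Fin n) : ∃ F : PresentedGroup R →* Multiplicative ℤ,
    ∀ i, F (PresentedGroup.of i) = Multiplicative.ofAdd (if i = t then (1 : ℤ) else 0) :=
  exists_hom hR _ (fun _ _ _ => mul_comm _ _)

include hR in
/-- Generators which commute are adjacent. -/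
lemma adj_of_comm {i j : Fin n} (hij : i ≠ j)
    (h : (PresentedGroup.of i : PresentedGroup R) * PresentedGroup.of j =
      PresentedGroup.of j * PresentedGroup.of i) : Γ.Adj i j := by
  by_contra hna
  obtain ⟨F, hF⟩ := exists_hom (G := Equiv.Perm (Fin 3)) hR
    (fun k => if k = i then Equiv.swap 0 1 else if k = j then Equiv.swap 1 2 else 1) (by
      intro k l hkl
      by_cases h1 : k = i
      · subst h1
        by_cases h2 : l = j
        · subst h2; exact absurd hkl hna
        · have : l ≠ k := hkl.ne'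
          simp [this, h2]
      · by_cases h2 : k = j
        · subst h2
          by_cases h3 : l = i
          · subst h3; exact absurd hkl.symm hna
          · have : l ≠ k := hkl.ne'
            simp [this, h3]
        · simp [h1, h2])
  have := congrArg F h
  rw [map_mul, map_mul, hF, hF] at this
  simp only [if_true, if_neg hij.symm] at this
  revert this
  decide

/-- A letter with sign. -/
def gz (R : Set (FreeGroup (Fin n))) (i : Fin n) (e : ℤ) : PresentedGroup R := (PresentedGroup.of i) ^ e

lemma Lab.exists {g h : PresentedGroup R} {i : Fin n} (hl : Lab g h i) :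
    ∃ e : ℤ, (e = 1 ∨ e = -1) ∧ h = g * gz R i e := by
  rcases hl with h1 | h1
  · exact ⟨1, Or.inl rfl, by rw [gz, zpow_one]; exact h1⟩
  · exact ⟨-1, Or.inr rfl, by rw [gz, zpow_neg_one, h1]; group⟩

include hR in
lemma Lab.unique {g h : PresentedGroup R} {i j : Fin n} (h1 : Lab g h i) (h2 : Lab g h j) :
    i = j := by
  obtain ⟨e, he, h3⟩ := h1.exists
  obtain ⟨e', he', h4⟩ := h2.exists
  rw [h3] at h4
  have h5 := mul_left_cancel h4
  obtain ⟨F, hF⟩ := exists_cnt hR i
  have h6 := congrArg F h5
  simp only [gz, map_zpow, hF] at h6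
  by_contra hij
  rw [if_pos trivial, if_neg (Ne.symm hij)] at h6
  have h7 := congrArg Multiplicative.toAdd h6
  simp at h7
  omega

include hR in
/-- Squares in the Cayley graph. -/
lemma square {p q r s : PresentedGroup R} {i j k l : Fin n} (h1 : Lab p q i) (h2 : Lab q r j)
    (h3 : Lab r s k) (h4 : Lab s p l) (hpr : p ≠ r) (hqs : q ≠ s) : k = i ∧ Γ.Adj i j := by
  obtain ⟨a, ha, e1⟩ := h1.exists
  obtain ⟨b, hb, e2⟩ := h2.exists
  obtain ⟨c, hc, e3⟩ := h3.exists
  obtain ⟨d, hd, e4⟩ := h4.exists
  have hprod : gz R i a * gz R j b * gz R k c * gz R l d = 1 := by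
    have : p = p * (gz R i a * gz R j b * gz R k c * gz R l d) := by
      conv_lhs => rw [e4, e3, e2, e1]
      group
    exact (mul_eq_left.1 this.symm)
  have hcnt : ∀ t, a * (if i = t then (1 : ℤ) else 0) + b * (if j = t then (1 : ℤ) else 0) +
      c * (if k = t then (1 : ℤ) else 0) + d * (if l = t then (1 : ℤ) else 0) = 0 := by
    intro t
    obtain ⟨F, hF⟩ := exists_cnt hR t
    have h6 := congrArg F hprod
    simp only [gz, map_mul, map_zpow, hF, map_one] at h6
    have h7 := congrArg Multiplicative.toAdd h6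
    simpa using h7
  -- consecutive letters do not cancel
  have n1 : ¬ (i = j ∧ a + b = 0) := by
    rintro ⟨rfl, hab⟩
    apply hpr
    rw [e2, e1, mul_assoc, gz, gz, ← zpow_add, hab, zpow_zero, mul_one]
  have n2 : ¬ (j = k ∧ b + c = 0) := by
    rintro ⟨rfl, hbc⟩
    apply hqs
    rw [e3, e2, mul_assoc, gz, gz, ← zpow_add, hbc, zpow_zero, mul_one]
  have hci := hcnt i
  have hcj := hcnt j
  have hck := hcnt k
  have hij : i ≠ j := by
    rintro rfl
    simp only [if_true] at hci
    by_cases hk : k = i
    · subst hk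
      have m1 : a + b ≠ 0 := fun h => n1 ⟨rfl, h⟩
      have m2 : b + c ≠ 0 := fun h => n2 ⟨rfl, h⟩
      simp only [if_true] at hci
      split_ifs at hci <;> omega
    · rw [if_neg hk] at hci
      have m1 : a + b ≠ 0 := fun h => n1 ⟨rfl, h⟩
      split_ifs at hci <;> omega
  have hkj : j ≠ k := by
    rintro rfl
    rw [if_neg hij] at hcj
    simp only [if_true] at hcj
    have m2 : b + c ≠ 0 := fun h => n2 ⟨rfl, h⟩
    split_ifs at hcj <;> omega
  have hlj : l = j := by
    by_contra hlj
    rw [if_neg hij, if_pos rfl, if_neg hkj.symm, if_neg hlj] at hcj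
    omega
  subst hlj
  have hki : k = i := by
    by_contra hki
    rw [if_pos rfl, if_neg hij.symm, if_neg hki] at hci
    omega
  subst hki
  refine ⟨rfl, adj_of_comm hR hij ?_⟩
  rw [if_pos rfl, if_neg hij.symm] at hck
  rw [if_neg hij, if_pos rfl] at hcj
  have hac : c = -a := by omega
  have hbd : d = -b := by omega
  subst hac
  subst hbd
  have hcomm : Commute (gz R k a) (gz R l b) := by
    have h8 : gz R k a * gz R l b * (gz R k a)⁻¹ * (gz R l b)⁻¹ = 1 := by
      rw [← hprod]
      simp only [gz, zpow_neg]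
    have h9 : gz R k a * gz R l b = gz R l b * gz R k a := by
      have := congrArg (fun z => z * gz R l b * gz R k a) h8
      simpa [mul_assoc] using this
    exact h9
  have hk' : (PresentedGroup.of k : PresentedGroup R) = (gz R k a) ^ a := by
    rw [gz, ← zpow_mul]
    rcases ha with rfl | rfl <;> norm_num
  have hl' : (PresentedGroup.of l : PresentedGroup R) = (gz R l b) ^ b := by
    rw [gz, ← zpow_mul]
    rcases hb with rfl | rfl <;> norm_num
  rw [hk', hl']
  exact (hcomm.zpow_zpow a b)

include hR in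
lemma comm_of_adj {i j : Fin n} (h : Γ.Adj i j) (a b : ℤ) :
    gz R i a * gz R j b = gz R j b * gz R i a := by
  have h1 : Commute (PresentedGroup.of i : PresentedGroup R) (PresentedGroup.of j) := by
    have hr : FreeGroup.of i * FreeGroup.of j * (FreeGroup.of i)⁻¹ * (FreeGroup.of j)⁻¹ ∈ R := by
      rw [hR]; exact ⟨i, j, h, rfl⟩
    have h2 := PresentedGroup.one_of_mem hr
    simp only [map_mul, map_inv] at h2
    change (PresentedGroup.of i : PresentedGroup R) * PresentedGroup.of j *
      (PresentedGroup.of i)⁻¹ * (PresentedGroup.of j)⁻¹ = 1 at h2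
    have := congrArg (fun z => z * PresentedGroup.of j * PresentedGroup.of i) h2
    have h3 : (PresentedGroup.of i : PresentedGroup R) * PresentedGroup.of j =
      PresentedGroup.of j * PresentedGroup.of i := by simpa [mul_assoc] using this
    exact h3
  exact (h1.zpow_zpow a b)

variable (C : SimpleGraph (PresentedGroup R))
  (hC : ∀ g h : PresentedGroup R, C.Adj g h ↔
          (g ≠ h ∧ ∃ i : Fin n, h = g * PresentedGroup.of i ∨ g = h * PresentedGroup.of i))

/-- The labelling given by a convex embedding. -/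
def lblOf {V : Type*} {G : SimpleGraph V} (f : G ↪g C)
    (hconv : ∀ a b c : PresentedGroup R, a ∈ Set.range f → b ∈ Set.range f →
            C.dist a c + C.dist c b = C.dist a b → c ∈ Set.range f) : Lbl G (Set (Fin n)) where
  l p q := {i | Lab (f p) (f q) i}
  com S S' := ∃ i ∈ S, ∃ j ∈ S', Γ.Adj i j
  sym p q := by
    ext i
    exact ⟨Lab.symm, Lab.symm⟩
  comsym S S' := by
    rintro ⟨i, hi, j, hj, hij⟩
    exact ⟨j, hj, i, hi, hij.symm⟩
  sq p q r s h1 h2 h3 h4 hpr hqs := by
    obtain ⟨-, i, hi⟩ := (hC _ _).1 (f.map_adj_iff.2 h1)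
    obtain ⟨-, j, hj⟩ := (hC _ _).1 (f.map_adj_iff.2 h2)
    obtain ⟨-, k, hk⟩ := (hC _ _).1 (f.map_adj_iff.2 h3)
    obtain ⟨-, l, hl⟩ := (hC _ _).1 (f.map_adj_iff.2 h4)
    have hi' : Lab (f p) (f q) i := hi
    have hj' : Lab (f q) (f r) j := hj
    have hk' : Lab (f r) (f s) k := hk
    have hl' : Lab (f s) (f p) l := hl
    have hsq := square hR hi' hj' hk' hl' (fun h => hpr (f.injective h))
      (fun h => hqs (f.injective h))
    obtain ⟨rfl, hadj⟩ := hsq
    refine ⟨?_, k, hi', j, hj', hadj⟩
    ext t
    constructor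
    · intro ht
      have := Lab.unique hR ht hi'
      subst this
      exact hk'.symm
    · intro ht
      have := Lab.unique hR ht hk'.symm
      subst this
      exact hi'
  fill p q r h1 h2 hqr hnadj := by
    rintro ⟨i, hi, j, hj, hij⟩
    have hi' : Lab (f p) (f q) i := hi
    have hj' : Lab (f p) (f r) j := hj
    obtain ⟨a, ha, ea⟩ := hi'.exists
    obtain ⟨b, hb, eb⟩ := hj'.exists
    set c := f p * gz R i a * gz R j b with hcdef
    have hc2 : c = f r * gz R i a := by
      rw [hcdef, mul_assoc, comm_of_adj hR hij, ← mul_assoc, ← eb]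
    have hc1 : c = f q * gz R j b := by rw [hcdef, ← ea]
    have hne : ∀ (t : Fin n) (e : ℤ), (e = 1 ∨ e = -1) → gz R t e ≠ 1 := by
      intro t e he h
      obtain ⟨F, hF⟩ := exists_cnt hR t
      have h6 := congrArg F h
      simp only [gz, map_zpow, hF, map_one, if_true] at h6
      have h7 := congrArg Multiplicative.toAdd h6
      simp at h7
      omega
    have hlab : ∀ (g : PresentedGroup R) (t : Fin n) (e : ℤ), (e = 1 ∨ e = -1) →
        C.Adj g (g * gz R t e) := by
      intro g t e he
      rw [hC]
      refine ⟨fun h => hne t e he (mul_eq_left.1 h.symm), t, ?_⟩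
      rcases he with rfl | rfl
      · left; rw [gz, zpow_one]
      · right; rw [gz, zpow_neg_one]; group
    have hqc : C.Adj (f q) c := by rw [hc1]; exact hlab _ _ _ hb
    have hrc : C.Adj (f r) c := by rw [hc2]; exact hlab _ _ _ ha
    have hnadj' : ¬ C.Adj (f q) (f r) := fun h => hnadj (f.map_adj_iff.1 h)
    have hfne : f q ≠ f r := fun h => hqr (f.injective h)
    have hd : C.dist (f q) (f r) = 2 := by
      have hle : C.dist (f q) (f r) ≤ 2 := by
        have := SimpleGraph.dist_le (SimpleGraph.Walk.cons hqc (SimpleGraph.Walk.cons hrc.symm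
          SimpleGraph.Walk.nil))
        simpa using this
      have hreach : C.Reachable (f q) (f r) := ⟨SimpleGraph.Walk.cons hqc
        (SimpleGraph.Walk.cons hrc.symm SimpleGraph.Walk.nil)⟩
      have h0 : C.dist (f q) (f r) ≠ 0 := fun h => hfne ((hreach.dist_eq_zero_iff).1 h)
      have h1 : C.dist (f q) (f r) ≠ 1 := fun h => hnadj' (SimpleGraph.dist_eq_one_iff_adj.1 h)
      omega
    have hcr : c ∈ Set.range f := by
      apply hconv (f q) (f r) c ⟨q, rfl⟩ ⟨r, rfl⟩
      rw [hd, SimpleGraph.dist_eq_one_iff_adj.2 hqc, SimpleGraph.dist_eq_one_iff_adj.2 hrc.symm]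
    obtain ⟨s, hs⟩ := hcr
    refine ⟨s, ?_, ?_, ?_⟩
    · rintro rfl
      have h8 : gz R i a * gz R j b = 1 := by
        rw [hcdef, mul_assoc] at hs
        exact (mul_eq_left.1 hs.symm)
      obtain ⟨F, hF⟩ := exists_cnt hR i
      have h6 := congrArg F h8
      simp only [gz, map_mul, map_zpow, hF, map_one, if_true, if_neg hij.ne'] at h6
      have h7 := congrArg Multiplicative.toAdd h6
      simp at h7
      omega
    · rw [← f.map_adj_iff, hs]; exact hqc
    · rw [← f.map_adj_iff, hs]; exact hrc

end Raag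

end Pool.Agent.U630.CC
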