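import Pool.Agent.U630.CC.Cplx

/-!
The Aleshin automaton as a complete square complex; the elements `v ^ (2 ^ m)`.
-/

set_option autoImplicit false
set_option linter.unusedSectionVars false

namespace Pool.Agent.U630.CC

/-- The squares `s x = y t` of the Aleshin automaton, in all four corners. -/
def tab : Fin 3 × Bool → Bool × Bool → (Bool × Bool) × (Fin 3 × Bool)
  | (0, false), (false, false) => ((false, false), (2, false))
  | (0, false), (false, true) => ((true, true), (1, false))
  | (0, false), (true, false) => ((true, false), (2, false))
  | (0, false), (true, true) => ((false, true), (2, false))
  | (0, true), (false, false) => ((false, false), (2, true))
  | (0, true), (false, true) => ((true, true), (2, true))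
  | (0, true), (true, false) => ((true, false), (2, true))
  | (0, true), (true, true) => ((false, true), (1, true))
  | (1, false), (false, false) => ((true, false), (0, false))
  | (1, false), (false, true) => ((true, true), (2, false))
  | (1, false), (true, false) => ((false, false), (1, false))
  | (1, false), (true, true) => ((false, true), (1, false))
  | (1, true), (false, false) => ((true, false), (1, true))
  | (1, true), (false, true) => ((true, true), (1, true))
  | (1, true), (true, false) => ((false, false), (0, true))
  | (1, true), (true, true) => ((false, true), (2, true))
  | (2, false), (false, false) => ((true, false), (1, false))
  | (2, false), (false, true) => ((false, true), (0, false))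
  | (2, false), (true, false) => ((false, false), (0, false))
  | (2, false), (true, true) => ((true, true), (0, false))
  | (2, true), (false, false) => ((true, false), (0, true))
  | (2, true), (false, true) => ((false, true), (0, true))
  | (2, true), (true, false) => ((false, false), (1, true))
  | (2, true), (true, true) => ((true, true), (0, true))

/-- The same squares, read from the other side. -/
def tab' : Bool × Bool → Fin 3 × Bool → (Fin 3 × Bool) × (Bool × Bool)
  | (false, false), (0, false) => ((2, false), (true, false))
  | (false, false), (0, true) => ((1, true), (true, false))
  | (false, false), (1, false) => ((1, false), (true, false))
  | (false, false), (1, true) => ((2, true), (true, false))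
  | (false, false), (2, false) => ((0, false), (false, false))
  | (false, false), (2, true) => ((0, true), (false, false))
  | (false, true), (0, false) => ((2, false), (false, true))
  | (false, true), (0, true) => ((2, true), (false, true))
  | (false, true), (1, false) => ((1, false), (true, true))
  | (false, true), (1, true) => ((0, true), (true, true))
  | (false, true), (2, false) => ((0, false), (true, true))
  | (false, true), (2, true) => ((1, true), (true, true))
  | (true, false), (0, false) => ((1, false), (false, false))
  | (true, false), (0, true) => ((2, true), (false, false))
  | (true, false), (1, false) => ((2, false), (false, false))
  | (true, false), (1, true) => ((1, true), (false, false))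
  | (true, false), (2, false) => ((0, false), (true, false))
  | (true, false), (2, true) => ((0, true), (true, false))
  | (true, true), (0, false) => ((2, false), (true, true))
  | (true, true), (0, true) => ((2, true), (true, true))
  | (true, true), (1, false) => ((0, false), (false, true))
  | (true, true), (1, true) => ((1, true), (false, true))
  | (true, true), (2, false) => ((1, false), (false, true))
  | (true, true), (2, true) => ((0, true), (false, true))

/-- The Aleshin automaton. -/
def TA : Trans (Fin 3) Bool where
  o s x := (tab s x).1
  n s x := (tab s x).2
  oR := by decide
  nR := by decide
  oI := by decide
  nI := by decide

/-- The dual automaton. -/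
def TB : Trans Bool (Fin 3) where
  o s x := (tab' s x).1
  n s x := (tab' s x).2
  oR := by decide
  nR := by decide
  oI := by decide
  nI := by decide

lemma hAl : Compat TA TB := by
  unfold Compat
  decide

end Pool.Agent.U630.CC
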