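import Pool.Agent.U630.CC.Trans

/-!
The cube complex: a product of two trees with a strip glued along every axis of one letter.
Vertices, metric, graph, medians, the group action.
-/

set_option autoImplicit false
set_option linter.unusedSectionVars false

namespace Pool.Agent.U630.CC

open Classical

lemma lt_pow_norm {α : Type*} (x : α × Bool) (n : ℕ) : ((lt x) ^ n).norm = n := by
  have h : (lt x) ^ n = FreeGroup.mk (List.replicate n x) := by
    induction n with
    | zero => rfl
    | succ n ih => rw [pow_succ', ih, List.replicate_succ, mk_cons]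
  rw [h, FreeGroup.norm, FreeGroup.toWord_mk, FreeGroup.reduce_replicate, List.length_replicate]

lemma lt_zpow_norm {α : Type*} (x : α × Bool) (n : ℤ) : ((lt x) ^ n).norm = n.natAbs := by
  rcases n with n | n
  · simpa using lt_pow_norm x n
  · rw [zpow_negSucc, FreeGroup.norm_inv_eq, lt_pow_norm]
    simp

lemma interval_nat {α : Type*} (x : α × Bool) (n : ℕ) : ∀ m : FreeGroup α,
    m.norm + (m⁻¹ * (lt x) ^ n).norm = n → ∃ j : ℕ, m = (lt x) ^ j := by
  induction n with
  | zero =>
    intro m h
    have : m.norm = 0 := by omega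
    exact ⟨0, by simpa using this⟩
  | succ n ih =>
    intro m h
    by_cases hs : Starts x m
    · have h1 := hs.norm
      obtain ⟨j, hj⟩ := ih ((lt x)⁻¹ * m) (by
        have e : ((lt x)⁻¹ * m)⁻¹ * (lt x) ^ n = m⁻¹ * (lt x) ^ (n + 1) := by
          rw [pow_succ']; group
        rw [e]
        omega)
      refine ⟨j + 1, ?_⟩
      rw [pow_succ', ← hj]
      group
    · have hs' : Starts x ((lt x) ^ (n + 1)) := by
        by_contra hs'
        have h2 := not_starts_norm hs'
        rw [pow_succ', inv_mul_cancel_left, lt_pow_norm, ← pow_succ', lt_pow_norm] at h2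
        omega
      have h3 := norm_sep hs' hs
      rw [lt_pow_norm] at h3
      have e : (m⁻¹ * (lt x) ^ (n + 1)).norm = (((lt x) ^ (n + 1))⁻¹ * m).norm := by
        rw [← FreeGroup.norm_inv_eq]
        congr 1
        group
      have : m.norm = 0 := by omega
      exact ⟨0, by simpa using this⟩

lemma interval_int {α : Type*} (x : α × Bool) (n : ℤ) (m : FreeGroup α)
    (h : m.norm + (m⁻¹ * (lt x) ^ n).norm = ((lt x) ^ n).norm) : ∃ j : ℤ, m = (lt x) ^ j := by
  rcases n with n | n
  · have e : (lt x) ^ (Int.ofNat n) = (lt x) ^ n := by simp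
    rw [e, lt_pow_norm] at h
    obtain ⟨j, hj⟩ := interval_nat x n m h
    exact ⟨j, by simpa using hj⟩
  · have e : (lt x) ^ (Int.negSucc n) = (lt (li x)) ^ (n + 1) := by
      rw [zpow_negSucc, ← lt_inv, inv_pow]
    rw [e, lt_pow_norm] at h
    obtain ⟨j, hj⟩ := interval_nat (li x) (n + 1) m h
    refine ⟨-j, ?_⟩
    rw [hj, ← lt_inv]
    simp

section Complex

variable {σ α : Type*} {T : Trans σ α} {T' : Trans α σ} (hc : Compat T T') (x0 : α)

/-- The group of the strips. -/
def SS : Subgroup (HH hc) := Subgroup.zpowers (eA hc (lt (x0, true)))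

lemma mem_SS (g : HH hc) : g ∈ SS hc x0 ↔ ∃ n : ℤ, g = eA hc ((lt (x0, true)) ^ n) := by
  rw [SS, Subgroup.mem_zpowers_iff]
  constructor
  · rintro ⟨n, hn⟩; exact ⟨n, by rw [map_zpow, hn]⟩
  · rintro ⟨n, hn⟩; exact ⟨n, by rw [hn, map_zpow]⟩

/-- The vertices. -/
abbrev VV := (HH hc) × Bool

/-- The strip containing a vertex. -/
noncomputable def sig (p : VV hc) : Option ((HH hc) ⧸ (SS hc x0)) :=
  if p.2 then some (QuotientGroup.mk p.1) else none

@[simp] lemma sig_false (g : HH hc) : sig hc x0 (g, false) = none := rfl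
@[simp] lemma sig_true (g : HH hc) : sig hc x0 (g, true) = some (QuotientGroup.mk g) := rfl

/-- The metric. -/
noncomputable def met : NMet (VV hc) where
  d p q := (fm α).d (ca hc p.1) (ca hc q.1) + (fm σ).d (cb hc p.1) (cb hc q.1) +
    (NMet.star _).d (sig hc x0 p) (sig hc x0 q)
  self p := by simp [(fm α).self, (fm σ).self, (NMet.star _).self]
  eq_of p q h := by
    have h1 := (fm α).eq_of (ca hc p.1) (ca hc q.1) (by omega)
    have h2 := (fm σ).eq_of (cb hc p.1) (cb hc q.1) (by omega)
    have h3 := (NMet.star _).eq_of (sig hc x0 p) (sig hc x0 q) (by omega)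
    have h4 := coord_inj hc _ _ h1 h2
    obtain ⟨g, i⟩ := p
    obtain ⟨k, j⟩ := q
    cases i <;> cases j <;> simp_all
  symm p q := by rw [(fm α).symm, (fm σ).symm, (NMet.star _).symm]
  tri p q r := by
    have t1 := (fm α).tri (ca hc p.1) (ca hc q.1) (ca hc r.1)
    have t2 := (fm σ).tri (cb hc p.1) (cb hc q.1) (cb hc r.1)
    have t3 := (NMet.star _).tri (sig hc x0 p) (sig hc x0 q) (sig hc x0 r)
    omega

lemma met_d (p q : VV hc) : (met hc x0).d p q =
    (fm α).d (ca hc p.1) (ca hc q.1) + (fm σ).d (cb hc p.1) (cb hc q.1) +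
    (NMet.star _).d (sig hc x0 p) (sig hc x0 q) := rfl

lemma isMed_rot {V : Type*} (m : NMet V) {x y z p : V} (h : m.IsMed x y z p) :
    m.IsMed z x y p := by
  obtain ⟨h1, h2, h3⟩ := h
  refine ⟨?_, h1, ?_⟩
  · rw [m.symm z p, m.symm p x, m.symm z x]; omega
  · rw [m.symm z p, m.symm p y, m.symm z y]; omega

lemma isMed_same {V : Type*} (m : NMet V) (x z : V) : m.IsMed x x z x :=
  m.isMed_left _ _ _ (by simp [m.self])

lemma strip_case (p q r : VV hc) (hp : sig hc x0 p ≠ none) (hpq : sig hc x0 p = sig hc x0 q) :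
    ∃ m : VV hc, (fm α).IsMed (ca hc p.1) (ca hc q.1) (ca hc r.1) (ca hc m.1) ∧
      (fm σ).IsMed (cb hc p.1) (cb hc q.1) (cb hc r.1) (cb hc m.1) ∧
      (NMet.star _).IsMed (sig hc x0 p) (sig hc x0 q) (sig hc x0 r) (sig hc x0 m) := by
  obtain ⟨g, i⟩ := p
  obtain ⟨k, j⟩ := q
  cases i
  · simp at hp
  cases j
  · simp at hpq
  simp only [sig_true, Option.some.injEq] at hpq
  rw [QuotientGroup.eq, mem_SS] at hpq
  obtain ⟨n, hn⟩ := hpq
  have hk : k = g * eA hc ((lt (x0, true)) ^ n) := by rw [← hn]; group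
  obtain ⟨mA, hmA, -⟩ := fm_median (ca hc g) (ca hc k) (ca hc r.1)
  have hback : mA = g.1.1 ((g⁻¹).1.1 mA) := by
    have h : (g⁻¹).1.1 = (g.1.1)⁻¹ := rfl
    rw [h]
    simp
  set mA' := (g⁻¹).1.1 mA with hmA'
  have hint : mA'.norm + (mA'⁻¹ * (lt (x0, true)) ^ n).norm = ((lt (x0, true)) ^ n).norm := by
    have h1 := hmA.1
    rw [fm_d, fm_d, fm_d, hback, hk, ca_mul, ca_eA] at h1
    change (((g.1.1 1)⁻¹ * g.1.1 mA').norm + _ = ((g.1.1 1)⁻¹ * _).norm) at h1
    rw [isom1, isom1, isom1] at h1
    simpa using h1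
  obtain ⟨l, hl⟩ := interval_int _ _ _ hint
  refine ⟨(g * eA hc ((lt (x0, true)) ^ l), true), ?_, ?_, ?_⟩
  · rw [ca_mul, ca_eA, ← hl, ← hback]
    exact hmA
  · simp only [hk, cb_mul_eA]
    exact isMed_same _ _ _
  · have e1 : sig hc x0 (g * eA hc ((lt (x0, true)) ^ l), true) = sig hc x0 (g, true) := by
      simp only [sig_true, Option.some.injEq]
      rw [eq_comm, QuotientGroup.eq, mem_SS]
      exact ⟨l, by group⟩
    have e2 : sig hc x0 (k, true) = sig hc x0 (g, true) := by
      simp only [sig_true, Option.some.injEq]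
      rw [eq_comm, QuotientGroup.eq, mem_SS]
      exact ⟨n, hn⟩
    rw [e1, e2]
    exact isMed_same _ _ _

theorem met_median : (met hc x0).Median := by
  apply NMet.median_of_three (met hc x0) (fm α) (fm σ) (NMet.star _) fm_median fm_median
    (NMet.star_median _) (fun p => ca hc p.1) (fun p => cb hc p.1) (sig hc x0)
  · intro p q
    rfl
  · intro p q r
    by_cases h1 : sig hc x0 p ≠ none ∧ sig hc x0 p = sig hc x0 q
    · exact strip_case hc x0 p q r h1.1 h1.2
    by_cases h2 : sig hc x0 q ≠ none ∧ sig hc x0 q = sig hc x0 r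
    · obtain ⟨m, a, b, c⟩ := strip_case hc x0 q r p h2.1 h2.2
      exact ⟨m, isMed_rot _ a, isMed_rot _ b, isMed_rot _ c⟩
    by_cases h3 : sig hc x0 r ≠ none ∧ sig hc x0 r = sig hc x0 p
    · obtain ⟨m, a, b, c⟩ := strip_case hc x0 r p q h3.1 h3.2
      exact ⟨m, isMed_rot _ (isMed_rot _ a), isMed_rot _ (isMed_rot _ b),
        isMed_rot _ (isMed_rot _ c)⟩
    obtain ⟨mA, hmA, -⟩ := fm_median (ca hc p.1) (ca hc q.1) (ca hc r.1)
    obtain ⟨mB, hmB, -⟩ := fm_median (cb hc p.1) (cb hc q.1) (cb hc r.1)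
    obtain ⟨g, hg1, hg2⟩ := coord_surj hc mA mB
    refine ⟨(g, false), ?_, ?_, ?_⟩
    · simp only [hg1]; exact hmA
    · simp only [hg2]; exact hmB
    · rw [sig_false]
      generalize sig hc x0 p = x at *
      generalize sig hc x0 q = y at *
      generalize sig hc x0 r = z at *
      rcases x with _ | x <;> rcases y with _ | y <;> rcases z with _ | z <;>
        simp_all [NMet.IsMed, NMet.star]
      · exact fun e => h3 e.symm
      · exact fun e => h3 e.symm

/-- The graph. -/
def GG : SimpleGraph (VV hc) where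
  Adj p q := (met hc x0).d p q = 1
  symm := ⟨fun p q h => by
    have := (met hc x0).symm p q
    omega⟩
  loopless := ⟨fun p h => by
    have := (met hc x0).self p
    omega⟩

lemma GG_adj (p q : VV hc) : (GG hc x0).Adj p q ↔ (met hc x0).d p q = 1 := Iff.rfl

lemma adj_A (g : HH hc) (x : α × Bool) : (GG hc x0).Adj (g, false) (g * eA hc (lt x), false) := by
  rw [GG_adj, met_d]
  simp only [sig_false, (NMet.star _).self, da_right, db_right, ca_eA, cb_eA, lt_norm]
  simp

lemma adj_B (g : HH hc) (s : σ × Bool) :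
    (GG hc x0).Adj (g, false) (g * eB hc (lt s), false) := by
  rw [GG_adj, met_d]
  simp only [sig_false, (NMet.star _).self, da_right, db_right, ca_eB, cb_eB, lt_norm]
  simp

lemma adj_up (g : HH hc) : (GG hc x0).Adj (g, false) (g, true) := by
  rw [GG_adj, met_d, (fm α).self, (fm σ).self]
  simp [NMet.star]

lemma sig_strip (g : HH hc) (n : ℤ) :
    sig hc x0 (g * eA hc ((lt (x0, true)) ^ n), true) = sig hc x0 (g, true) := by
  simp only [sig_true, Option.some.injEq]
  rw [eq_comm, QuotientGroup.eq, mem_SS]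
  exact ⟨n, by group⟩

lemma dist_strip (g : HH hc) (n m : ℤ) :
    (met hc x0).d (g * eA hc ((lt (x0, true)) ^ n), true)
      (g * eA hc ((lt (x0, true)) ^ m), true) = (m - n).natAbs := by
  rw [met_d, sig_strip, sig_strip, (NMet.star _).self, cb_mul_eA, cb_mul_eA, (fm σ).self, da_mul,
    ca_eA, ca_eA, fm_d, ← lt_zpow_norm (x0, true), add_zero, add_zero]
  congr 1
  group

lemma adj_strip (g : HH hc) :
    (GG hc x0).Adj (g, true) (g * eA hc (lt (x0, true)), true) := by
  rw [GG_adj]
  have := dist_strip hc x0 g 0 1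
  simpa using this

theorem descent (p q : VV hc) (hne : p ≠ q) :
    ∃ p', (GG hc x0).Adj p p' ∧ (met hc x0).d p q = (met hc x0).d p' q + 1 := by
  obtain ⟨g, i⟩ := p
  obtain ⟨k, j⟩ := q
  cases i
  · by_cases h1 : ca hc g = ca hc k
    · by_cases h2 : cb hc g = cb hc k
      · have h3 := coord_inj hc _ _ h1 h2
        subst h3
        cases j
        · exact absurd rfl hne
        · refine ⟨(g, true), adj_up hc x0 g, ?_⟩
          rw [(met hc x0).self]
          exact adj_up hc x0 g
      · obtain ⟨x, hx⟩ := descB hc g k h2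
        refine ⟨_, adj_B hc x0 g x, ?_⟩
        rw [met_d, met_d]
        simp only [sig_false, ca_mul_eB] at hx ⊢
        omega
    · obtain ⟨x, hx⟩ := descA hc g k h1
      refine ⟨_, adj_A hc x0 g x, ?_⟩
      rw [met_d, met_d]
      simp only [sig_false, cb_mul_eA] at hx ⊢
      omega
  · by_cases h : sig hc x0 (g, true) = sig hc x0 (k, j)
    · cases j
      · simp at h
      simp only [sig_true, Option.some.injEq] at h
      rw [QuotientGroup.eq, mem_SS] at h
      obtain ⟨n, hn⟩ := h
      have hk : k = g * eA hc ((lt (x0, true)) ^ n) := by rw [← hn]; group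
      have hn0 : n ≠ 0 := by
        rintro rfl
        apply hne
        rw [hk]
        simp
      have hg : g = g * eA hc ((lt (x0, true)) ^ (0 : ℤ)) := by simp
      rw [hk]
      rcases lt_or_gt_of_ne hn0 with hneg | hpos
      · refine ⟨(g * eA hc ((lt (x0, true)) ^ (-1 : ℤ)), true), ?_, ?_⟩
        · rw [GG_adj]
          have := dist_strip hc x0 g 0 (-1)
          rw [← hg] at this
          rw [this]
          simp
        · have h1 := dist_strip hc x0 g 0 n
          rw [← hg] at h1
          rw [h1, dist_strip]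
          omega
      · refine ⟨(g * eA hc ((lt (x0, true)) ^ (1 : ℤ)), true), ?_, ?_⟩
        · rw [GG_adj]
          have := dist_strip hc x0 g 0 1
          rw [← hg] at this
          rw [this]
          simp
        · have h1 := dist_strip hc x0 g 0 n
          rw [← hg] at h1
          rw [h1, dist_strip]
          omega
    · refine ⟨(g, false), (adj_up hc x0 g).symm, ?_⟩
      rw [met_d, met_d]
      have : (NMet.star _).d (sig hc x0 (g, true)) (sig hc x0 (k, j)) =
          (NMet.star _).d (sig hc x0 (g, false)) (sig hc x0 (k, j)) + 1 := by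
        cases j <;> simp_all [NMet.star]
      simp only at this ⊢
      omega

theorem graph_dist : (GG hc x0).Connected ∧
    ∀ p q, (GG hc x0).dist p q = (met hc x0).d p q := by
  haveI : Nonempty (VV hc) := ⟨(1, false)⟩
  exact NMet.dist_of_descent _ _ (fun p q h => h) (descent hc x0)

/-- The action of the group. -/
def actV : MulAction (HH hc) (VV hc) where
  smul h p := (h * p.1, p.2)
  one_smul p := by
    change ((1 : HH hc) * p.1, p.2) = p
    simp
  mul_smul g h p := by
    change ((g * h) * p.1, p.2) = (g * (h * p.1), p.2)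
    rw [mul_assoc]

lemma met_inv (h : HH hc) (p q : VV hc) :
    (met hc x0).d (h * p.1, p.2) (h * q.1, q.2) = (met hc x0).d p q := by
  obtain ⟨g, i⟩ := p
  obtain ⟨k, j⟩ := q
  rw [met_d, met_d]
  simp only [da_mul, db_mul]
  congr 1
  cases i <;> cases j <;> simp [NMet.star, QuotientGroup.eq, mul_assoc]

lemma norm_le_one_finite {β : Type*} [Finite β] : {u : FreeGroup β | u.norm ≤ 1}.Finite := by
  apply Set.Finite.subset (s := {1} ∪ Set.range (lt (α := β)))
  · exact (Set.finite_singleton _).union (Set.finite_range _)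
  · intro u hu
    rcases Nat.lt_or_ge u.norm 1 with h | h
    · left
      have : u.norm = 0 := by omega
      simpa using this
    · right
      obtain ⟨x, hx⟩ := exists_lt_of_norm (le_antisymm hu h)
      exact ⟨x, hx.symm⟩

theorem locally_finite [Finite α] [Finite σ] (p : VV hc) :
    ((GG hc x0).neighborSet p).Finite := by
  have hfin : ({u : FreeGroup α | u.norm ≤ 1} ×ˢ ({u : FreeGroup σ | u.norm ≤ 1} ×ˢ
      (Set.univ : Set Bool))).Finite :=
    norm_le_one_finite.prod (norm_le_one_finite.prod Set.finite_univ)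
  let F : VV hc → FreeGroup α × (FreeGroup σ × Bool) :=
    fun q => (ca hc (p.1⁻¹ * q.1), (cb hc (p.1⁻¹ * q.1), q.2))
  have hF : Set.InjOn F ((GG hc x0).neighborSet p) := by
    intro q _ r _ h
    simp only [F, Prod.mk.injEq] at h
    have := coord_inj hc _ _ h.1 h.2.1
    exact Prod.ext (mul_left_cancel this) h.2.2
  apply Set.Finite.of_finite_image _ hF
  apply hfin.subset
  rintro _ ⟨q, hq, rfl⟩
  have hq' : (met hc x0).d p q = 1 := hq
  rw [met_d] at hq'
  have e : q.1 = p.1 * (p.1⁻¹ * q.1) := by group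
  have h1 : (fm α).d (ca hc p.1) (ca hc q.1) = (ca hc (p.1⁻¹ * q.1)).norm := by
    conv_lhs => rw [e, da_right]
  have h2 : (fm σ).d (cb hc p.1) (cb hc q.1) = (cb hc (p.1⁻¹ * q.1)).norm := by
    conv_lhs => rw [e, db_right]
  refine ⟨?_, ?_, trivial⟩
  · change (ca hc (p.1⁻¹ * q.1)).norm ≤ 1
    omega
  · change (cb hc (p.1⁻¹ * q.1)).norm ≤ 1
    omega

end Complex

end Pool.Agent.U630.CC
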