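import Mathlib

/-!
Integer valued metrics, medians, and graph distances.
-/

set_option autoImplicit false

namespace Pool.Agent.U630.CC

/-- An integer valued metric. -/
structure NMet (V : Type*) where
  d : V → V → ℕ
  self : ∀ x, d x x = 0
  eq_of : ∀ x y, d x y = 0 → x = y
  symm : ∀ x y, d x y = d y x
  tri : ∀ x y z, d x z ≤ d x y + d y z

namespace NMet

variable {V : Type*}

/-- `p` is a median of `x, y, z`. -/
def IsMed (m : NMet V) (x y z p : V) : Prop :=
  m.d x p + m.d p y = m.d x y ∧ m.d y p + m.d p z = m.d y z ∧ m.d x p + m.d p z = m.d x z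

/-- Every triple has a unique median. -/
def Median (m : NMet V) : Prop := ∀ x y z, ∃! p, m.IsMed x y z p

lemma isMed_left (m : NMet V) (x y z : V) (h : m.d y x + m.d x z = m.d y z) :
    m.IsMed x y z x := by
  refine ⟨?_, h, ?_⟩ <;> simp [m.self]

/-- The tree criterion. -/
theorem median_of_tree (m : NMet V)
    (desc : ∀ x y, x ≠ y → ∃ x', m.d x x' = 1 ∧ m.d x y = m.d x' y + 1)
    (par : ∀ a b, m.d a b = 1 → ∀ y, m.d a y = m.d b y + 1 ∨ m.d b y = m.d a y + 1)
    (sep : ∀ a b y z, m.d a b = 1 → m.d a y = m.d b y + 1 → m.d b z = m.d a z + 1 →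
      m.d y z = m.d y b + 1 + m.d a z) : m.Median := by
  have ex : ∀ n : ℕ, ∀ x y z, m.d x y = n → ∃ p, m.IsMed x y z p := by
    intro n
    induction n with
    | zero =>
      intro x y z h
      have := m.eq_of x y h
      subst this
      exact ⟨x, m.isMed_left _ _ _ (by simp [m.self])⟩
    | succ n ih =>
      intro x y z h
      have hne : x ≠ y := by
        rintro rfl
        simp [m.self] at h
      obtain ⟨x', h1, h2⟩ := desc x y hne
      obtain ⟨p, hp1, hp2, hp3⟩ := ih x' y z (by omega)
      rcases par x x' h1 z with h3 | h3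
      · refine ⟨p, ?_, hp2, ?_⟩
        · have t1 := m.tri x x' p
          have t2 := m.tri x p y
          omega
        · have t1 := m.tri x x' p
          have t2 := m.tri x p z
          omega
      · refine ⟨x, m.isMed_left _ _ _ ?_⟩
        have := sep x x' y z h1 h2 h3
        have s1 := m.symm x y
        have s2 := m.symm x' y
        omega
  have uq : ∀ x y z p q, m.IsMed x y z p → m.IsMed x y z q → p = q := by
    intro x y z p q hp hq
    by_contra hne
    obtain ⟨c, h1, h2⟩ := desc p q hne
    -- two of the points on the same side of the edge `p c`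
    have key : ∀ u v, m.d u p + m.d p v = m.d u v → m.d u q + m.d q v = m.d u v →
        ¬ ((m.d p u = m.d c u + 1 ∧ m.d p v = m.d c v + 1) ∨
          (m.d c u = m.d p u + 1 ∧ m.d c v = m.d p v + 1)) := by
      intro u v hpu hqu
      rintro (⟨a1, a2⟩ | ⟨a1, a2⟩)
      · have t := m.tri u c v
        have s1 := m.symm u p
        have s2 := m.symm u c
        omega
      · have e1 := sep p c q u h1 h2 a1
        have e2 := sep p c q v h1 h2 a2
        have s1 := m.symm q u
        have s2 := m.symm p u
        omega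
    have k1 := key x y hp.1 hq.1
    have k2 := key y z hp.2.1 hq.2.1
    have k3 := key x z hp.2.2 hq.2.2
    rcases par p c h1 x with a | a <;> rcases par p c h1 y with b | b <;>
      rcases par p c h1 z with e | e <;> simp_all
  intro x y z
  obtain ⟨p, hp⟩ := ex _ x y z rfl
  exact ⟨p, hp, fun q hq => uq x y z q p hq hp⟩

/-- The median criterion for a subset of a product of three median metrics. -/
theorem median_of_three {V1 V2 V3 : Type*} (m : NMet V) (m1 : NMet V1) (m2 : NMet V2)
    (m3 : NMet V3) (h1 : m1.Median) (h2 : m2.Median) (h3 : m3.Median)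
    (f1 : V → V1) (f2 : V → V2) (f3 : V → V3)
    (hd : ∀ x y, m.d x y = m1.d (f1 x) (f1 y) + m2.d (f2 x) (f2 y) + m3.d (f3 x) (f3 y))
    (hex : ∀ x y z, ∃ p, m1.IsMed (f1 x) (f1 y) (f1 z) (f1 p) ∧
      m2.IsMed (f2 x) (f2 y) (f2 z) (f2 p) ∧ m3.IsMed (f3 x) (f3 y) (f3 z) (f3 p)) :
    m.Median := by
  intro x y z
  obtain ⟨p, hp1, hp2, hp3⟩ := hex x y z
  have hsplit : ∀ q u v, m.d u q + m.d q v = m.d u v →
      (m1.d (f1 u) (f1 q) + m1.d (f1 q) (f1 v) = m1.d (f1 u) (f1 v)) ∧
      (m2.d (f2 u) (f2 q) + m2.d (f2 q) (f2 v) = m2.d (f2 u) (f2 v)) ∧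
      (m3.d (f3 u) (f3 q) + m3.d (f3 q) (f3 v) = m3.d (f3 u) (f3 v)) := by
    intro q u v h
    rw [hd, hd, hd] at h
    have t1 := m1.tri (f1 u) (f1 q) (f1 v)
    have t2 := m2.tri (f2 u) (f2 q) (f2 v)
    have t3 := m3.tri (f3 u) (f3 q) (f3 v)
    refine ⟨?_, ?_, ?_⟩ <;> omega
  refine ⟨p, ⟨?_, ?_, ?_⟩, ?_⟩
  · rw [hd, hd, hd]
    have a := hp1.1
    have b := hp2.1
    have c := hp3.1
    omega
  · rw [hd, hd, hd]
    have a := hp1.2.1
    have b := hp2.2.1
    have c := hp3.2.1
    omega
  · rw [hd, hd, hd]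
    have a := hp1.2.2
    have b := hp2.2.2
    have c := hp3.2.2
    omega
  · intro q hq
    obtain ⟨a1, a2, a3⟩ := hsplit q x y hq.1
    obtain ⟨b1, b2, b3⟩ := hsplit q y z hq.2.1
    obtain ⟨c1, c2, c3⟩ := hsplit q x z hq.2.2
    have e1 : f1 q = f1 p := (h1 _ _ _).unique ⟨a1, b1, c1⟩ hp1
    have e2 : f2 q = f2 p := (h2 _ _ _).unique ⟨a2, b2, c2⟩ hp2
    have e3 : f3 q = f3 p := (h3 _ _ _).unique ⟨a3, b3, c3⟩ hp3
    apply m.eq_of
    rw [hd, e1, e2, e3, m1.self, m2.self, m3.self]

/-- The star metric on `Option K`. -/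
def star (K : Type*) [DecidableEq K] : NMet (Option K) where
  d x y := if x = y then 0 else if x = none ∨ y = none then 1 else 2
  self x := by simp
  eq_of x y h := by
    by_contra hne
    simp only [hne, if_false] at h
    split_ifs at h
  symm x y := by
    by_cases h : x = y
    · simp [h]
    · simp [h, Ne.symm h, or_comm]
  tri x y z := by
    rcases x with _ | x <;> rcases y with _ | y <;> rcases z with _ | z <;> simp <;>
      split_ifs <;> simp_all

lemma star_median (K : Type*) [DecidableEq K] : (star K).Median := by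
  intro x y z
  have hfor : ∀ p, (star K).IsMed x y z p ↔
      p = (if x = y then x else if y = z then y else if x = z then x else none) := by
    intro p
    unfold IsMed star
    rcases x with _ | x <;> rcases y with _ | y <;> rcases z with _ | z <;>
      rcases p with _ | p <;> simp <;> grind
  exact ⟨_, (hfor _).2 rfl, fun q hq => (hfor q).1 hq⟩

/-- The graph distance of a graph with a compatible metric. -/
theorem dist_of_descent [Nonempty V] (m : NMet V) (G : SimpleGraph V)
    (hle : ∀ p q, G.Adj p q → m.d p q = 1)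
    (desc : ∀ p q, p ≠ q → ∃ p', G.Adj p p' ∧ m.d p q = m.d p' q + 1) :
    G.Connected ∧ ∀ p q, G.dist p q = m.d p q := by
  have walk : ∀ n : ℕ, ∀ p q, m.d p q = n → ∃ w : G.Walk p q, w.length = n := by
    intro n
    induction n with
    | zero =>
      intro p q h
      have := m.eq_of p q h
      subst this
      exact ⟨SimpleGraph.Walk.nil, rfl⟩
    | succ n ih =>
      intro p q h
      have hne : p ≠ q := by
        rintro rfl
        simp [m.self] at h
      obtain ⟨p', h1, h2⟩ := desc p q hne
      obtain ⟨w, hw⟩ := ih p' q (by omega)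
      exact ⟨SimpleGraph.Walk.cons h1 w, by simp [hw]⟩
  have hconn : G.Connected := by
    rw [SimpleGraph.connected_iff]
    refine ⟨fun p q => ?_, inferInstance⟩
    obtain ⟨w, _⟩ := walk _ p q rfl
    exact ⟨w⟩
  refine ⟨hconn, fun p q => le_antisymm ?_ ?_⟩
  · obtain ⟨w, hw⟩ := walk _ p q rfl
    rw [← hw]
    exact SimpleGraph.dist_le w
  · obtain ⟨w, hw⟩ := hconn.exists_walk_length_eq_dist p q
    rw [← hw]
    clear hw
    induction w with
    | nil => simp [m.self]
    | cons h w ih =>
      rename_i u v w'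
      have t := m.tri u v w'
      have := hle u v h
      simp only [SimpleGraph.Walk.length_cons]
      omega

end NMet

end Pool.Agent.U630.CC
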