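import Pool.Agent.U630.CC.Power

/-!
The complex has no labelling of its edges by a finite set with the properties that a convex
embedding into the universal cover of a Salvetti complex would give.
-/

set_option autoImplicit false
set_option linter.unusedSectionVars false

namespace Pool.Agent.U630.CC

/-- A special labelling of the edges of a graph. -/
structure Lbl {V : Type*} (G : SimpleGraph V) (K : Type*) where
  l : V → V → K
  com : K → K → Prop
  sym : ∀ p q, l p q = l q p
  comsym : ∀ i j, com i j → com j i
  /-- squares -/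
  sq : ∀ p q r s, G.Adj p q → G.Adj q r → G.Adj r s → G.Adj s p → p ≠ r → q ≠ s →
    l p q = l s r ∧ com (l p q) (l q r)
  /-- commuting labels span a square -/
  fill : ∀ p q r, G.Adj p q → G.Adj p r → q ≠ r → ¬ G.Adj q r → com (l p q) (l p r) →
    ∃ s, s ≠ p ∧ G.Adj q s ∧ G.Adj r s

section General

variable {σ α : Type*} {T : Trans σ α} {T' : Trans α σ} (hc : Compat T T') (x0 : α)
variable {K : Type*} (L : Lbl (GG hc x0) K)

lemma ca_ne_step (g : HH hc) (x : α × Bool) : ca hc g ≠ ca hc (g * eA hc (lt x)) := by
  classical
  intro h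
  have h1 := da_right hc g (eA hc (lt x))
  rw [← h, (fm α).self, ca_eA, lt_norm] at h1
  exact absurd h1 (by norm_num)

/-- Parallel horizontal edges have the same label. -/
theorem parallel (v : FreeGroup σ) : ∀ (g : HH hc) (x x' : α × Bool),
    ca hc (g * eA hc (lt x)) = ca hc (g * eB hc v * eA hc (lt x')) →
    L.l (g, false) (g * eA hc (lt x), false) =
      L.l (g * eB hc v, false) (g * eB hc v * eA hc (lt x'), false) := by
  induction v using Trans.word_induction with
  | h1 =>
    intro g x x' h
    have : g * eA hc (lt x) = g * eB hc 1 * eA hc (lt x') := by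
      apply coord_inj hc _ _ h
      rw [cb_mul_eA, cb_mul_eA]
      simp
    rw [this]
    simp
  | hc s v ih =>
    intro g x x' h
    set g1 := g * eB hc (lt s) with hg1
    set x1 := T.o (li s) x with hx1
    set t := T.n s x1 with ht
    have hox : T.o s x1 = x := by
      have := T.oI (li s) x
      rwa [li_li] at this
    have hrel : g1 * eA hc (lt x1) = g * eA hc (lt x) * eB hc (lt t) := by
      rw [hg1, mul_assoc, rel_e, hox, ← mul_assoc]
    have hstep : L.l (g, false) (g * eA hc (lt x), false) =
        L.l (g1, false) (g1 * eA hc (lt x1), false) := by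
      have := L.sq (g, false) (g * eA hc (lt x), false) (g1 * eA hc (lt x1), false) (g1, false)
        (adj_A hc x0 g x) (by rw [hrel]; exact adj_B hc x0 _ t) (adj_A hc x0 g1 x1).symm
        (adj_B hc x0 g s).symm
        (by
          intro h'
          have h2 : g = g1 * eA hc (lt x1) := congrArg Prod.fst h'
          have h3 := congrArg (ca hc) h2
          rw [hrel, ca_mul_eB] at h3
          exact ca_ne_step hc g x h3)
        (by
          intro h'
          have h2 : g * eA hc (lt x) = g1 := congrArg Prod.fst h'
          have h3 := congrArg (ca hc) h2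
          rw [hg1, ca_mul_eB] at h3
          exact ca_ne_step hc g x h3.symm)
      exact this.1
    have hmul : g * eB hc (lt s * v) = g1 * eB hc v := by rw [map_mul, ← mul_assoc]
    rw [hstep, hmul]
    rw [hmul] at h
    apply ih
    rw [← h, hrel, ca_mul_eB]

/-- The label of the strip. -/
def nl (g : HH hc) : K := L.l (g, false) (g, true)

theorem strip_sq (g : HH hc) :
    nl hc x0 L g = nl hc x0 L (g * eA hc (lt (x0, true))) ∧
      L.com (nl hc x0 L g) (L.l (g, false) (g * eA hc (lt (x0, true)), false)) := by
  have h := L.sq (g, true) (g, false) (g * eA hc (lt (x0, true)), false)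
    (g * eA hc (lt (x0, true)), true) (adj_up hc x0 g).symm (adj_A hc x0 g _) (adj_up hc x0 _)
    (adj_strip hc x0 g).symm (by intro h'; exact absurd (congrArg Prod.snd h') (by simp))
    (by intro h'; exact absurd (congrArg Prod.snd h') (by simp))
  refine ⟨?_, ?_⟩
  · rw [nl, nl, L.sym (g, false), h.1, L.sym]
  · rw [nl, L.sym (g, false)]
    exact h.2

theorem strip_pow (g : HH hc) (k : ℕ) :
    nl hc x0 L g = nl hc x0 L (g * eA hc ((lt (x0, true)) ^ k)) := by
  induction k with
  | zero => simp
  | succ k ih =>
    rw [ih, (strip_sq hc x0 L _).1, pow_succ, map_mul, mul_assoc]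

/-- At a vertex of the strip, a horizontal edge which is not on the axis does not commute. -/
theorem osc (g : HH hc) (y : α × Bool) (hy : ∀ n : ℤ, lt y ≠ (lt (x0, true)) ^ n) :
    ¬ L.com (nl hc x0 L g) (L.l (g, false) (g * eA hc (lt y), false)) := by
  classical
  intro h
  have hd : ∀ k : HH hc, (met hc x0).d (g, true) (k, false) =
      (fm α).d (ca hc g) (ca hc k) + (fm σ).d (cb hc g) (cb hc k) + 1 := by
    intro k
    rw [met_d]
    simp [NMet.star]
  obtain ⟨s, hs1, hs2, hs3⟩ := L.fill (g, false) (g, true) (g * eA hc (lt y), false)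
    (adj_up hc x0 g) (adj_A hc x0 g y) (by intro h'; exact absurd (congrArg Prod.snd h') (by simp))
    (by
      rw [GG_adj, hd, da_right, ca_eA, lt_norm]
      omega) h
  obtain ⟨k, i⟩ := s
  cases i
  · rw [GG_adj, hd] at hs2
    apply hs1
    have h1 := (fm α).eq_of (ca hc g) (ca hc k) (by omega)
    have h2 := (fm σ).eq_of (cb hc g) (cb hc k) (by omega)
    rw [coord_inj hc _ _ h1 h2]
  · have hs3' := hs3.symm
    have hd2 : (met hc x0).d (k, true) (g * eA hc (lt y), false) =
      (fm α).d (ca hc k) (ca hc (g * eA hc (lt y))) +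
        (fm σ).d (cb hc k) (cb hc (g * eA hc (lt y))) + 1 := by
      rw [met_d]
      simp [NMet.star]
    rw [GG_adj, hd2] at hs3'
    have h1 := (fm α).eq_of (ca hc k) (ca hc (g * eA hc (lt y))) (by omega)
    have h2 := (fm σ).eq_of (cb hc k) (cb hc (g * eA hc (lt y))) (by omega)
    have h3 := coord_inj hc _ _ h1 h2
    subst h3
    rw [GG_adj, met_d] at hs2
    simp only [da_right, db_right, ca_eA, cb_eA, lt_norm] at hs2
    have h4 : sig hc x0 (g, true) = sig hc x0 (g * eA hc (lt y), true) := by
      apply (NMet.star _).eq_of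
      omega
    simp only [sig_true, Option.some.injEq] at h4
    rw [QuotientGroup.eq, mem_SS] at h4
    obtain ⟨n, hn⟩ := h4
    rw [inv_mul_cancel_left] at hn
    have := congrArg (ca hc) hn
    rw [ca_eA, ca_eA] at this
    exact hy n this

end General

lemma lY_ne (n : ℤ) : lt lY ≠ (lt (false, true)) ^ n := by
  intro h
  have := congrArg (FreeGroup.lift (fun b : Bool => if b then Multiplicative.ofAdd (1 : ℤ) else 1)) h
  have e1 : lt lY = FreeGroup.of true := rfl
  have e2 : lt (false, true) = FreeGroup.of false := rfl
  rw [e1, e2, map_zpow, FreeGroup.lift_apply_of, FreeGroup.lift_apply_of] at this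
  simp at this

/-- The Aleshin complex has no special labelling with finitely many labels. -/
theorem no_label {K : Type*} [Finite K] (L : Lbl (GG hAl false) K) : False := by
  -- the labels of the edges of a ray
  let X : HH hAl := eA hAl (lt lX)
  let lam : ℕ → K := fun i =>
    L.l (eA hAl ((lt lX) ^ i), false) (eA hAl ((lt lX) ^ i) * eA hAl (lt lX), false)
  have key : ∀ i j : ℕ, i < j → lam i ≠ lam j := by
    intro i j hij heq
    obtain ⟨m, hm⟩ : ∃ m, j = i + m ∧ 1 ≤ m := ⟨j - i, by omega, by omega⟩
    obtain ⟨hm, hm1⟩ := hm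
    have hv : chi (lt (0, true)) = -1 := by rw [chi_lt]; decide
    obtain ⟨⟨w, hw1, hw2⟩, hb⟩ := power m (lt (0, true)) hv
    obtain ⟨b', hb'⟩ := hb hm1
    obtain ⟨-, z, -, hz, -⟩ := active w hw1
    set b := (lt ((0 : Fin 3), true)) ^ (2 ^ m) with hbdef
    set Xi := eA hAl ((lt lX) ^ i) with hXi
    set h := Xi * eB hAl b with hh
    -- the edge `e_i` at the height of the line
    have h1 : lam i = L.l (h, false) (h * eA hAl (lt lX), false) := by
      apply parallel hAl false L b Xi lX lX
      rw [mul_assoc, hb', ← mul_assoc, ca_mul_eB]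
    have h2 : L.com (nl hAl false L h) (lam i) := by
      rw [h1]
      exact (strip_sq hAl false L h).2
    have h3 : nl hAl false L h = nl hAl false L (h * eA hAl ((lt lX) ^ m)) :=
      strip_pow hAl false L h m
    set g := h * eA hAl ((lt lX) ^ m) with hg
    have h4 : g = eA hAl ((lt lX) ^ j) * eB hAl w := by
      rw [hg, hh, mul_assoc, hw2, ← mul_assoc, hXi, ← map_mul, ← pow_add, hm]
    have h5 : lam j = L.l (g, false) (g * eA hAl (lt lY), false) := by
      rw [h4]
      apply parallel hAl false L w (eA hAl ((lt lX) ^ j)) lX lY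
      rw [mul_assoc, hz, ← mul_assoc, ca_mul_eB]
    rw [h3, heq, h5] at h2
    exact osc hAl false L g lY lY_ne h2
  have hinj : Function.Injective lam := by
    intro i j h
    rcases lt_trichotomy i j with h1 | h1 | h1
    · exact absurd h (key i j h1)
    · exact h1
    · exact absurd h.symm (key j i h1)
  exact not_injective_infinite_finite lam hinj

end Pool.Agent.U630.CC
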