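import Pool.Agent.U630.CC.Alesh

/-!
Active elements of the Aleshin group: `v ^ (2 ^ m)` fixes the word `x^m` and moves `x^(m+1)`.
-/

set_option autoImplicit false
set_option linter.unusedSectionVars false

namespace Pool.Agent.U630.CC

/-- The sign of an element of the free group on the states: `-1` if it exchanges the letters. -/
def chi : FreeGroup (Fin 3) →* ℤˣ := FreeGroup.lift (fun s => if s = 2 then 1 else -1)

/-- The action of a sign on the letters. -/
def fl (e : ℤˣ) (y : Bool) : Bool := if e = 1 then y else !y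

lemma fl_mul (e e' : ℤˣ) (y : Bool) : fl (e * e') y = fl e (fl e' y) := by
  revert e e' y
  decide

lemma chi_lt (s : Fin 3 × Bool) : chi (lt s) = if s.1 = 2 then 1 else -1 := by
  obtain ⟨a, b⟩ := s
  cases b
  · have e : lt (a, false) = (FreeGroup.of a)⁻¹ := by
      rw [FreeGroup.of, lt, FreeGroup.inv_mk]; rfl
    rw [e, map_inv, chi, FreeGroup.lift_apply_of]
    revert a
    decide
  · have e : lt (a, true) = FreeGroup.of a := rfl
    rw [e, chi, FreeGroup.lift_apply_of]

lemma tab_fl (s : Fin 3 × Bool) (y : Bool) :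
    (TA.o s (y, true)) = (fl (if s.1 = 2 then 1 else -1) y, true) := by
  revert s y
  decide

lemma tab_chi (s : Fin 3 × Bool) (e : ℤˣ) :
    (if (TA.n s (fl e false, true)).1 = 2 then (1 : ℤˣ) else -1) *
      (if (TA.n s (fl e true, true)).1 = 2 then (1 : ℤˣ) else -1) =
      (if s.1 = 2 then (1 : ℤˣ) else -1) := by
  revert s e
  decide

/-- The sections of an element at the two letters. -/
lemma sections (v : FreeGroup (Fin 3)) : ∃ w : Bool → FreeGroup (Fin 3),
    (∀ y, eB hAl v * eA hAl (lt (y, true)) = eA hAl (lt (fl (chi v) y, true)) * eB hAl (w y)) ∧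
      chi (w false) * chi (w true) = chi v := by
  induction v using Trans.word_induction with
  | h1 => exact ⟨fun _ => 1, fun y => by simp [fl], by simp⟩
  | hc s v ih =>
    obtain ⟨w, h1, h2⟩ := ih
    refine ⟨fun y => lt (TA.n s (fl (chi v) y, true)) * w y, fun y => ?_, ?_⟩
    · rw [map_mul, mul_assoc, h1, ← mul_assoc, rel_e, tab_fl, map_mul, map_mul, fl_mul, chi_lt,
        mul_assoc]
    · simp only [map_mul, chi_lt]
      rw [mul_mul_mul_comm, tab_chi s (chi v), h2]

/-- The letter `x`. -/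
def lX : Bool × Bool := (false, true)
/-- The other letter. -/
def lY : Bool × Bool := (true, true)

lemma active (v : FreeGroup (Fin 3)) (hv : chi v = -1) : ∃ w w' : FreeGroup (Fin 3),
    eB hAl v * eA hAl (lt lX) = eA hAl (lt lY) * eB hAl w ∧
    eB hAl v * eA hAl (lt lY) = eA hAl (lt lX) * eB hAl w' ∧ chi w * chi w' = -1 := by
  obtain ⟨w, h1, h2⟩ := sections v
  refine ⟨w false, w true, ?_, ?_, by rw [h2, hv]⟩
  · have := h1 false
    rw [hv] at this
    exact this
  · have := h1 true
    rw [hv] at this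
    exact this

lemma power_comm (b b' : FreeGroup (Fin 3)) (a : FreeGroup Bool)
    (h : eB hAl b * eA hAl a = eA hAl a * eB hAl b') (N : ℕ) :
    eB hAl (b ^ N) * eA hAl a = eA hAl a * eB hAl (b' ^ N) := by
  induction N with
  | zero => simp
  | succ N ih =>
    rw [pow_succ, pow_succ, map_mul, map_mul, mul_assoc, h, ← mul_assoc, ih, mul_assoc]

theorem power (m : ℕ) : ∀ v : FreeGroup (Fin 3), chi v = -1 →
    (∃ w, chi w = -1 ∧
      eB hAl (v ^ (2 ^ m)) * eA hAl ((lt lX) ^ m) = eA hAl ((lt lX) ^ m) * eB hAl w) ∧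
    (1 ≤ m → ∃ b', eB hAl (v ^ (2 ^ m)) * eA hAl (lt lX) = eA hAl (lt lX) * eB hAl b') := by
  induction m with
  | zero =>
    intro v hv
    refine ⟨⟨v, hv, by simp⟩, fun h => absurd h (by norm_num)⟩
  | succ m ih =>
    intro v hv
    obtain ⟨w, w', h1, h2, h3⟩ := active v hv
    have h4 : eB hAl (v * v) * eA hAl (lt lX) = eA hAl (lt lX) * eB hAl (w' * w) := by
      rw [map_mul, mul_assoc, h1, ← mul_assoc, h2, map_mul, mul_assoc]
    have h5 := power_comm _ _ _ h4 (2 ^ m)
    have e : (v * v) ^ (2 ^ m) = v ^ (2 ^ (m + 1)) := by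
      rw [← pow_two, ← pow_mul, pow_succ']
    rw [e] at h5
    obtain ⟨⟨z, hz1, hz2⟩, -⟩ := ih (w' * w) (by rw [map_mul, mul_comm]; exact h3)
    refine ⟨⟨z, hz1, ?_⟩, fun _ => ⟨_, h5⟩⟩
    rw [pow_succ' (lt lX), map_mul, ← mul_assoc, h5, mul_assoc, hz2, mul_assoc]

end Pool.Agent.U630.CC
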