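import Pool.Agent.U630.CC.Tree

/-!
Bireversible transducers acting on free groups, and the group of a complete square complex.
-/

set_option autoImplicit false

namespace Pool.Agent.U630.CC

set_option linter.unusedSectionVars false

/-- A transducer with states `σ^{±1}` and letters `α^{±1}` compatible with inverses: the squares
`s x = y t` of a complete square complex with one vertex, `y = o s x`, `t = n s x`. -/
structure Trans (σ α : Type*) where
  o : σ × Bool → α × Bool → α × Bool
  n : σ × Bool → α × Bool → σ × Bool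
  oR : ∀ s x, o (n s x) (li x) = li (o s x)
  nR : ∀ s x, n (n s x) (li x) = s
  oI : ∀ s x, o (li s) (o s x) = x
  nI : ∀ s x, n (li s) (o s x) = li (n s x)

namespace Trans

variable {σ α : Type*} (T : Trans σ α)

/-- Reading a word: output (in the free group) and final state. -/
def run : σ × Bool → List (α × Bool) → FreeGroup α × (σ × Bool)
  | s, [] => (1, s)
  | s, x :: w => (lt (T.o s x) * (run (T.n s x) w).1, (run (T.n s x) w).2)

lemma run_step {L L' : List (α × Bool)} (h : FreeGroup.Red.Step L L') (s : σ × Bool) :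
    T.run s L = T.run s L' := by
  cases h with
  | @not L1 L2 x b =>
    induction L1 generalizing s with
    | nil =>
      simp only [List.nil_append, run]
      have e : (x, !b) = li (x, b) := rfl
      rw [e, T.oR, T.nR, ← mul_assoc, ← lt_inv, mul_inv_cancel, one_mul]
    | cons y L1 ih =>
      simp only [List.cons_append, run, ih]

/-- Reading an element of the free group. -/
def go (s : σ × Bool) : FreeGroup α → FreeGroup α × (σ × Bool) :=
  Quot.lift (T.run s) (fun _ _ h => T.run_step h s)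

lemma go_mk (s : σ × Bool) (L : List (α × Bool)) : T.go s (FreeGroup.mk L) = T.run s L := rfl

@[simp] lemma go_one (s : σ × Bool) : T.go s 1 = (1, s) := rfl

lemma go_cons (s : σ × Bool) (x : α × Bool) (u : FreeGroup α) :
    T.go s (lt x * u) = (lt (T.o s x) * (T.go (T.n s x) u).1, (T.go (T.n s x) u).2) := by
  induction u using Quot.inductionOn with
  | _ L =>
    change T.go s (lt x * FreeGroup.mk L) = _
    rw [← mk_cons, go_mk, run]
    rfl

/-- Induction on words. -/
lemma word_induction {β : Type*} {P : FreeGroup β → Prop} (h1 : P 1)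
    (hc : ∀ x u, P u → P (lt x * u)) (u : FreeGroup β) : P u := by
  induction u using Quot.inductionOn with
  | _ L =>
    change P (FreeGroup.mk L)
    induction L with
    | nil => exact h1
    | cons x L ih => rw [mk_cons]; exact hc _ _ ih

lemma go_mul (s : σ × Bool) (u v : FreeGroup α) :
    T.go s (u * v) = ((T.go s u).1 * (T.go (T.go s u).2 v).1, (T.go (T.go s u).2 v).2) := by
  revert s
  induction u using word_induction with
  | h1 => intro s; simp
  | hc x u ih =>
    intro s
    rw [mul_assoc, go_cons, ih, go_cons]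
    simp [mul_assoc]

lemma go_lt (s : σ × Bool) (x : α × Bool) : T.go s (lt x) = (lt (T.o s x), T.n s x) := by
  have := T.go_cons s x 1
  simpa using this

lemma go_inv (s : σ × Bool) (u : FreeGroup α) :
    T.go (li s) (T.go s u).1 = (u, li (T.go s u).2) := by
  revert s
  induction u using word_induction with
  | h1 => intro s; simp
  | hc x u ih =>
    intro s
    rw [go_cons]
    simp only
    rw [go_cons, T.oI, T.nI, ih]

/-- The permutation of the free group given by a state. -/
def perm (s : σ × Bool) : Equiv.Perm (FreeGroup α) where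
  toFun u := (T.go s u).1
  invFun u := (T.go (li s) u).1
  left_inv u := by simp only [go_inv]
  right_inv u := by
    have := T.go_inv (li s) u
    rw [li_li] at this
    simp only [this]

lemma perm_apply (s : σ × Bool) (u : FreeGroup α) : T.perm s u = (T.go s u).1 := rfl

/-- The action of the free group on the states on the free group on the letters. -/
def rho : FreeGroup σ →* Equiv.Perm (FreeGroup α) := FreeGroup.lift (fun a => T.perm (a, true))

lemma rho_lt (s : σ × Bool) : T.rho (lt s) = T.perm s := by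
  obtain ⟨a, b⟩ := s
  cases b
  · have e : lt (a, false) = (FreeGroup.of a)⁻¹ := by
      rw [FreeGroup.of, lt, FreeGroup.inv_mk]; rfl
    rw [e, map_inv, rho, FreeGroup.lift_apply_of]
    ext u
    rfl
  · have e : lt (a, true) = FreeGroup.of a := rfl
    rw [e, rho, FreeGroup.lift_apply_of]

lemma rho_one (v : FreeGroup σ) : T.rho v 1 = 1 := by
  induction v using word_induction with
  | h1 => simp
  | hc x u ih => rw [map_mul, Equiv.Perm.mul_apply, ih, rho_lt, perm_apply, go_one]

lemma perm_adj (s : σ × Bool) (u : FreeGroup α) (w : FreeGroup α) :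
    T.perm s (u * w) = T.perm s u * T.perm (T.go s u).2 w := by
  rw [perm_apply, go_mul]
  rfl

variable [DecidableEq α]

lemma go_norm_le (s : σ × Bool) (u : FreeGroup α) : (T.go s u).1.norm ≤ u.norm := by
  have key : ∀ (L : List (α × Bool)) s, (T.run s L).1.norm ≤ L.length := by
    intro L
    induction L with
    | nil => intro s; simp [run]
    | cons x L ih =>
      intro s
      rw [run]
      have h1 := FreeGroup.norm_mul_le (lt (T.o s x)) (T.run (T.n s x) L).1
      have h2 := ih (T.n s x)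
      rw [lt_norm] at h1
      simp only [List.length_cons]
      omega
  have := key u.toWord s
  rwa [← go_mk, FreeGroup.mk_toWord] at this

lemma rho_nonexp (v : FreeGroup σ) (a b : FreeGroup α) :
    ((T.rho v a)⁻¹ * T.rho v b).norm ≤ (a⁻¹ * b).norm := by
  revert a b
  induction v using word_induction with
  | h1 => intro a b; simp
  | hc x u ih =>
    intro a b
    rw [map_mul, Equiv.Perm.mul_apply, Equiv.Perm.mul_apply, rho_lt]
    refine le_trans ?_ (ih a b)
    set a' := T.rho u a
    set b' := T.rho u b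
    have e : b' = a' * (a'⁻¹ * b') := by group
    have e2 : T.perm x b' = T.perm x a' * T.perm (T.go x a').2 (a'⁻¹ * b') := by
      conv_lhs => rw [e, perm_adj]
    rw [e2, inv_mul_cancel_left]
    exact T.go_norm_le _ _

end Trans

/-! ### The group -/

section Pair

variable {σ α : Type*} (T : Trans σ α) (T' : Trans α σ)

/-- The ambient group. -/
abbrev PP (σ α : Type*) := Equiv.Perm (FreeGroup α) × Equiv.Perm (FreeGroup σ)

/-- The horizontal free group. -/
def hA : FreeGroup α →* PP σ α :=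
  MonoidHom.prod (MulAction.toPermHom (FreeGroup α) (FreeGroup α)) T'.rho

/-- The vertical free group. -/
def hB : FreeGroup σ →* PP σ α :=
  MonoidHom.prod T.rho (MulAction.toPermHom (FreeGroup σ) (FreeGroup σ))

lemma hA_fst (u a : FreeGroup α) : (hA T' u).1 a = u * a := rfl
lemma hA_snd (u : FreeGroup α) (b : FreeGroup σ) : (hA T' u).2 b = T'.rho u b := rfl
lemma hB_fst (v : FreeGroup σ) (a : FreeGroup α) : (hB T v).1 a = T.rho v a := rfl
lemma hB_snd (v b : FreeGroup σ) : (hB T v).2 b = v * b := rfl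

/-- The two transducers describe the same squares. -/
def Compat : Prop := ∀ s x, T'.o (T.o s x) (T.n s x) = s ∧ T'.n (T.o s x) (T.n s x) = x

variable {T T'}

lemma rel1 (hc : Compat T T') (s : σ × Bool) (x : α × Bool) :
    hB T (lt s) * hA T' (lt x) = hA T' (lt (T.o s x)) * hB T (lt (T.n s x)) := by
  refine Prod.ext ?_ ?_
  · ext a : 1
    change T.rho (lt s) (lt x * a) = lt (T.o s x) * T.rho (lt (T.n s x)) a
    rw [T.rho_lt, T.rho_lt, T.perm_apply, T.go_cons]
    rfl
  · ext b : 1
    change lt s * T'.rho (lt x) b = T'.rho (lt (T.o s x)) (lt (T.n s x) * b)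
    rw [T'.rho_lt, T'.rho_lt, T'.perm_apply, T'.perm_apply, T'.go_cons, (hc s x).1, (hc s x).2]

lemma relA (hc : Compat T T') (s : σ × Bool) (u : FreeGroup α) :
    hB T (lt s) * hA T' u = hA T' (T.go s u).1 * hB T (lt (T.go s u).2) := by
  revert s
  induction u using Trans.word_induction with
  | h1 => intro s; simp
  | hc x u ih =>
    intro s
    rw [map_mul, ← mul_assoc, rel1 hc, mul_assoc, ih, ← mul_assoc, ← map_mul, T.go_cons]

lemma relB (hc : Compat T T') (v : FreeGroup σ) (u : FreeGroup α) :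
    ∃ u' v', hB T v * hA T' u = hA T' u' * hB T v' := by
  induction v using Trans.word_induction with
  | h1 => exact ⟨u, 1, by simp⟩
  | hc s v ih =>
    obtain ⟨u1, v1, h1⟩ := ih
    refine ⟨(T.go s u1).1, lt (T.go s u1).2 * v1, ?_⟩
    rw [map_mul, mul_assoc, h1, ← mul_assoc, relA hc, map_mul, mul_assoc]

/-- The fundamental group of the square complex. -/
def HH (hc : Compat T T') : Subgroup (PP σ α) where
  carrier := {g | ∃ u v, g = hA T' u * hB T v}
  one_mem' := ⟨1, 1, by simp⟩
  mul_mem' := by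
    rintro _ _ ⟨u, v, rfl⟩ ⟨u', v', rfl⟩
    obtain ⟨u1, v1, h1⟩ := relB hc v u'
    refine ⟨u * u1, v1 * v', ?_⟩
    rw [map_mul, map_mul, mul_assoc, ← mul_assoc (hB T v), h1]
    simp only [mul_assoc]
  inv_mem' := by
    rintro _ ⟨u, v, rfl⟩
    obtain ⟨u1, v1, h1⟩ := relB hc v⁻¹ u⁻¹
    refine ⟨u1, v1, ?_⟩
    rw [← h1, mul_inv_rev, map_inv, map_inv]

variable (hc : Compat T T')

/-- horizontal elements -/
def eA : FreeGroup α →* HH hc := (hA T').codRestrict (HH hc) (fun u => ⟨u, 1, by simp⟩)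

/-- vertical elements -/
def eB : FreeGroup σ →* HH hc := (hB T).codRestrict (HH hc) (fun v => ⟨1, v, by simp⟩)

lemma exists_form (g : HH hc) : ∃ u v, g = eA hc u * eB hc v := by
  obtain ⟨u, v, h⟩ := g.2
  exact ⟨u, v, Subtype.ext h⟩

/-- The horizontal coordinate. -/
def ca (g : HH hc) : FreeGroup α := g.1.1 1

/-- The vertical coordinate. -/
def cb (g : HH hc) : FreeGroup σ := g.1.2 1

lemma ca_mul (g k : HH hc) : ca hc (g * k) = g.1.1 (ca hc k) := rfl
lemma cb_mul (g k : HH hc) : cb hc (g * k) = g.1.2 (cb hc k) := rfl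

lemma ca_eA (u : FreeGroup α) : ca hc (eA hc u) = u := by
  change u * 1 = u
  simp

lemma ca_eB (v : FreeGroup σ) : ca hc (eB hc v) = 1 := T.rho_one v

lemma cb_eA (u : FreeGroup α) : cb hc (eA hc u) = 1 := T'.rho_one u

lemma cb_eB (v : FreeGroup σ) : cb hc (eB hc v) = v := by
  change v * 1 = v
  simp

lemma ca_eA_mul (u : FreeGroup α) (k : HH hc) : ca hc (eA hc u * k) = u * ca hc k := rfl

lemma cb_eB_mul (v : FreeGroup σ) (k : HH hc) : cb hc (eB hc v * k) = v * cb hc k := rfl

lemma ca_mul_eB (g : HH hc) (v : FreeGroup σ) : ca hc (g * eB hc v) = ca hc g := by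
  rw [ca_mul, ca_eB]; rfl

lemma cb_mul_eA (g : HH hc) (u : FreeGroup α) : cb hc (g * eA hc u) = cb hc g := by
  rw [cb_mul, cb_eA]; rfl

lemma eq_one_of (g : HH hc) (h1 : ca hc g = 1) (h2 : cb hc g = 1) : g = 1 := by
  obtain ⟨u, v, rfl⟩ := exists_form hc g
  rw [ca_mul_eB, ca_eA] at h1
  subst h1
  rw [map_one, one_mul, cb_eB] at h2
  subst h2
  simp

lemma coord_inj (g k : HH hc) (h1 : ca hc g = ca hc k) (h2 : cb hc g = cb hc k) : g = k := by
  have e : k⁻¹ * g = 1 := by
    apply eq_one_of hc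
    · rw [ca_mul, h1, ← ca_mul, inv_mul_cancel]; rfl
    · rw [cb_mul, h2, ← cb_mul, inv_mul_cancel]; rfl
  exact (inv_mul_eq_one.1 e).symm

lemma coord_surj (u : FreeGroup α) (w : FreeGroup σ) : ∃ g, ca hc g = u ∧ cb hc g = w := by
  refine ⟨eA hc u * eB hc ((T'.rho u)⁻¹ w), ?_, ?_⟩
  · rw [ca_mul_eB, ca_eA]
  · rw [cb_mul, cb_eB]
    change T'.rho u ((T'.rho u)⁻¹ w) = w
    simp

/-- If the horizontal coordinate is trivial, the element is vertical. -/
lemma eq_eB_of (g : HH hc) (h : ca hc g = 1) : ∃ v, g = eB hc v := by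
  obtain ⟨u, v, rfl⟩ := exists_form hc g
  rw [ca_mul_eB, ca_eA] at h
  subst h
  exact ⟨v, by simp⟩

lemma rel_e (s : σ × Bool) (x : α × Bool) :
    eB hc (lt s) * eA hc (lt x) = eA hc (lt (T.o s x)) * eB hc (lt (T.n s x)) :=
  Subtype.ext (rel1 hc s x)

variable [DecidableEq α] [DecidableEq σ]

lemma nonexp1 (g : HH hc) (a b : FreeGroup α) :
    ((g.1.1 a)⁻¹ * g.1.1 b).norm ≤ (a⁻¹ * b).norm := by
  obtain ⟨u, v, rfl⟩ := exists_form hc g
  change ((u * T.rho v a)⁻¹ * (u * T.rho v b)).norm ≤ _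
  have e : (u * T.rho v a)⁻¹ * (u * T.rho v b) = (T.rho v a)⁻¹ * T.rho v b := by group
  rw [e]
  exact T.rho_nonexp v a b

lemma nonexp2 (g : HH hc) (a b : FreeGroup σ) :
    ((g.1.2 a)⁻¹ * g.1.2 b).norm ≤ (a⁻¹ * b).norm := by
  obtain ⟨u, v, rfl⟩ := exists_form hc g
  change ((T'.rho u (v * a))⁻¹ * (T'.rho u (v * b))).norm ≤ _
  have e : (v * a)⁻¹ * (v * b) = a⁻¹ * b := by group
  rw [← e]
  exact T'.rho_nonexp u _ _

lemma isom1 (g : HH hc) (a b : FreeGroup α) :
    ((g.1.1 a)⁻¹ * g.1.1 b).norm = (a⁻¹ * b).norm := by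
  apply le_antisymm (nonexp1 hc g a b)
  have := nonexp1 hc g⁻¹ (g.1.1 a) (g.1.1 b)
  have e : ∀ c, (g⁻¹).1.1 (g.1.1 c) = c := by
    intro c
    have h : (g⁻¹).1.1 = (g.1.1)⁻¹ := rfl
    rw [h]
    simp
  rwa [e, e] at this

lemma isom2 (g : HH hc) (a b : FreeGroup σ) :
    ((g.1.2 a)⁻¹ * g.1.2 b).norm = (a⁻¹ * b).norm := by
  apply le_antisymm (nonexp2 hc g a b)
  have := nonexp2 hc g⁻¹ (g.1.2 a) (g.1.2 b)
  have e : ∀ c, (g⁻¹).1.2 (g.1.2 c) = c := by
    intro c
    have h : (g⁻¹).1.2 = (g.1.2)⁻¹ := rfl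
    rw [h]
    simp
  rwa [e, e] at this

lemma da_mul (g k l : HH hc) :
    (fm α).d (ca hc (g * k)) (ca hc (g * l)) = (fm α).d (ca hc k) (ca hc l) := by
  rw [fm_d, fm_d, ca_mul, ca_mul, isom1]

lemma db_mul (g k l : HH hc) :
    (fm σ).d (cb hc (g * k)) (cb hc (g * l)) = (fm σ).d (cb hc k) (cb hc l) := by
  rw [fm_d, fm_d, cb_mul, cb_mul, isom2]

lemma ca_one : ca hc 1 = 1 := rfl
lemma cb_one : cb hc 1 = 1 := rfl

lemma da_right (g k : HH hc) :
    (fm α).d (ca hc g) (ca hc (g * k)) = (ca hc k).norm := by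
  have := da_mul hc g 1 k
  rw [mul_one] at this
  rw [this, fm_d, ca_one]
  simp

lemma db_right (g k : HH hc) :
    (fm σ).d (cb hc g) (cb hc (g * k)) = (cb hc k).norm := by
  have := db_mul hc g 1 k
  rw [mul_one] at this
  rw [this, fm_d, cb_one]
  simp

lemma descA (g k : HH hc) (h : ca hc g ≠ ca hc k) :
    ∃ x, (fm α).d (ca hc g) (ca hc k) = (fm α).d (ca hc (g * eA hc (lt x))) (ca hc k) + 1 := by
  have hk : k = g * (g⁻¹ * k) := by group
  set l := g⁻¹ * k with hl
  have hne : (1 : FreeGroup α) ≠ ca hc l := by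
    intro h'
    apply h
    rw [hk, ca_mul, ← h']
    rfl
  obtain ⟨x, hx⟩ := fm_desc 1 (ca hc l) hne
  refine ⟨x, ?_⟩
  have e1 : (fm α).d (ca hc g) (ca hc k) = (fm α).d 1 (ca hc l) := by
    have := da_mul hc g 1 l
    rw [mul_one, ← hk] at this
    exact this
  have e2 : (fm α).d (ca hc (g * eA hc (lt x))) (ca hc k) = (fm α).d (1 * lt x) (ca hc l) := by
    have := da_mul hc g (eA hc (lt x)) l
    rw [← hk] at this
    rw [this, ca_eA, one_mul]
  rw [e1, e2, hx]

lemma descB (g k : HH hc) (h : cb hc g ≠ cb hc k) :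
    ∃ x, (fm σ).d (cb hc g) (cb hc k) = (fm σ).d (cb hc (g * eB hc (lt x))) (cb hc k) + 1 := by
  have hk : k = g * (g⁻¹ * k) := by group
  set l := g⁻¹ * k with hl
  have hne : (1 : FreeGroup σ) ≠ cb hc l := by
    intro h'
    apply h
    rw [hk, cb_mul, ← h']
    rfl
  obtain ⟨x, hx⟩ := fm_desc 1 (cb hc l) hne
  refine ⟨x, ?_⟩
  have e1 : (fm σ).d (cb hc g) (cb hc k) = (fm σ).d 1 (cb hc l) := by
    have := db_mul hc g 1 l
    rw [mul_one, ← hk] at this
    exact this
  have e2 : (fm σ).d (cb hc (g * eB hc (lt x))) (cb hc k) = (fm σ).d (1 * lt x) (cb hc l) := by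
    have := db_mul hc g (eB hc (lt x)) l
    rw [← hk] at this
    rw [this, cb_eB, one_mul]
  rw [e1, e2, hx]

end Pair

end Pool.Agent.U630.CC
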