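import Pool.Agent.U630.CC.Med

/-!
The word metric of a free group is a median metric.
-/

set_option autoImplicit false

namespace Pool.Agent.U630.CC

open FreeGroup

variable {α : Type*}

/-- The inverse letter. -/
def li (x : α × Bool) : α × Bool := (x.1, !x.2)

@[simp] lemma li_li (x : α × Bool) : li (li x) = x := by simp [li]

/-- A letter as an element of the free group. -/
def lt (x : α × Bool) : FreeGroup α := FreeGroup.mk [x]

lemma lt_inv (x : α × Bool) : (lt x)⁻¹ = lt (li x) := by
  simp [lt, li, FreeGroup.inv_mk, FreeGroup.invRev]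

lemma mk_cons (x : α × Bool) (L : List (α × Bool)) :
    FreeGroup.mk (x :: L) = lt x * FreeGroup.mk L := by
  simp [lt]

variable [DecidableEq α]

lemma lt_norm (x : α × Bool) : (lt x).norm = 1 := by
  simp [lt, FreeGroup.norm]

lemma norm_mk_of_red {L : List (α × Bool)} (h : IsReduced L) :
    (FreeGroup.mk L).norm = L.length := by
  simp [FreeGroup.norm, h.reduce_eq]

lemma exists_lt_of_norm {g : FreeGroup α} (h : g.norm = 1) : ∃ x, g = lt x := by
  unfold FreeGroup.norm at h
  obtain ⟨x, hx⟩ := List.length_eq_one_iff.1 h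
  exact ⟨x, by rw [lt, ← hx, FreeGroup.mk_toWord]⟩

/-- `g` starts with the letter `x`. -/
def Starts (x : α × Bool) (g : FreeGroup α) : Prop := ∃ L, g.toWord = x :: L

lemma Starts.norm {x : α × Bool} {g : FreeGroup α} (h : Starts x g) :
    g.norm = ((lt x)⁻¹ * g).norm + 1 := by
  obtain ⟨L, hL⟩ := h
  have hred : IsReduced (x :: L) := hL ▸ isReduced_toWord
  have hredL : IsReduced L := by
    have h := List.IsChain.tail hred
    exact h
  have hg : g = lt x * FreeGroup.mk L := by
    rw [← mk_cons, ← hL, FreeGroup.mk_toWord]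
  have h1 : (lt x)⁻¹ * g = FreeGroup.mk L := by rw [hg]; group
  rw [h1, norm_mk_of_red hredL, FreeGroup.norm, hL]
  simp

lemma not_starts_norm {x : α × Bool} {g : FreeGroup α} (h : ¬ Starts x g) :
    ((lt x)⁻¹ * g).norm = g.norm + 1 := by
  have hg : (lt x)⁻¹ * g = FreeGroup.mk (li x :: g.toWord) := by
    rw [mk_cons, FreeGroup.mk_toWord, lt_inv]
  have hred : IsReduced (li x :: g.toWord) := by
    rcases hw : g.toWord with _ | ⟨y, L⟩
    · simp
    · rw [isReduced_cons_cons]
      refine ⟨?_, hw ▸ isReduced_toWord⟩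
      intro h1
      by_contra h2
      apply h
      refine ⟨L, ?_⟩
      rw [hw]
      congr 1
      simp only [li] at h1 h2
      ext
      · exact h1.symm
      · cases hx : x.2 <;> cases hy : y.2 <;> simp_all
  rw [hg, norm_mk_of_red hred]
  simp [FreeGroup.norm]

lemma norm_sep {x : α × Bool} {g k : FreeGroup α} (h : Starts x g) (hk : ¬ Starts x k) :
    (g⁻¹ * k).norm = g.norm + k.norm := by
  obtain ⟨L, hL⟩ := h
  have e : g⁻¹ * k = FreeGroup.mk (invRev g.toWord ++ k.toWord) := by
    rw [← FreeGroup.mul_mk, FreeGroup.mk_toWord, ← FreeGroup.inv_mk, FreeGroup.mk_toWord]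
  have hred : IsReduced (invRev g.toWord ++ k.toWord) := by
    unfold FreeGroup.IsReduced
    rw [List.isChain_append]
    refine ⟨?_, isReduced_toWord, ?_⟩
    · have := isReduced_toWord (x := g⁻¹)
      rw [FreeGroup.toWord_inv] at this
      exact this
    · intro a ha b hb hab
      rw [hL] at ha
      simp only [FreeGroup.invRev, List.map_cons, List.reverse_cons, List.getLast?_append,
        List.getLast?_singleton, Option.some_or, Option.mem_def, Option.some.injEq] at ha
      subst ha
      by_contra h2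
      apply hk
      rcases hw : k.toWord with _ | ⟨y, L'⟩
      · rw [hw] at hb
        simp at hb
      · rw [hw] at hb
        simp only [List.head?_cons, Option.mem_def, Option.some.injEq] at hb
        subst hb
        refine ⟨L', ?_⟩
        rw [hw]
        congr 1
        ext
        · exact hab.symm
        · simp only at h2 ⊢
          cases hx : x.2 <;> cases hy : y.2 <;> simp_all
  rw [e, norm_mk_of_red hred]
  simp [FreeGroup.norm]

/-- The word metric. -/
def fm (α : Type*) [DecidableEq α] : NMet (FreeGroup α) where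
  d u v := (u⁻¹ * v).norm
  self u := by simp
  eq_of u v h := by
    rw [FreeGroup.norm_eq_zero] at h
    exact (inv_mul_eq_one.1 h)
  symm u v := by
    rw [← FreeGroup.norm_inv_eq]
    congr 1
    group
  tri u v w := by
    have := FreeGroup.norm_mul_le (u⁻¹ * v) (v⁻¹ * w)
    have e : u⁻¹ * v * (v⁻¹ * w) = u⁻¹ * w := by group
    rwa [e] at this

lemma fm_d (u v : FreeGroup α) : (fm α).d u v = (u⁻¹ * v).norm := rfl

theorem fm_desc (u v : FreeGroup α) (h : u ≠ v) :
    ∃ x, (fm α).d u v = (fm α).d (u * lt x) v + 1 := by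
  have hne : u⁻¹ * v ≠ 1 := fun h' => h (inv_mul_eq_one.1 h')
  rcases hw : (u⁻¹ * v).toWord with _ | ⟨x, L⟩
  · rw [FreeGroup.toWord_eq_nil_iff] at hw
    exact absurd hw hne
  · refine ⟨x, ?_⟩
    have := Starts.norm (x := x) (g := u⁻¹ * v) ⟨L, hw⟩
    rw [fm_d, fm_d, this]
    congr 2
    group

theorem fm_median : (fm α).Median := by
  apply NMet.median_of_tree
  · intro u v h
    obtain ⟨x, hx⟩ := fm_desc u v h
    refine ⟨u * lt x, ?_, hx⟩
    rw [fm_d]
    have : u⁻¹ * (u * lt x) = lt x := by group
    rw [this, lt_norm]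
  · intro a b hab y
    obtain ⟨x, hx⟩ := exists_lt_of_norm hab
    have hb : b = a * lt x := by rw [← hx]; group
    have e : b⁻¹ * y = (lt x)⁻¹ * (a⁻¹ * y) := by rw [hb]; group
    rw [fm_d, fm_d, e]
    by_cases hs : Starts x (a⁻¹ * y)
    · exact Or.inl hs.norm
    · exact Or.inr (not_starts_norm hs)
  · intro a b y z hab h1 h2
    obtain ⟨x, hx⟩ := exists_lt_of_norm hab
    have hb : b = a * lt x := by rw [← hx]; group
    have e : ∀ w, b⁻¹ * w = (lt x)⁻¹ * (a⁻¹ * w) := by intro w; rw [hb]; group
    rw [fm_d, fm_d, e] at h1 h2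
    have hs : Starts x (a⁻¹ * y) := by
      by_contra hs
      have := not_starts_norm hs
      omega
    have hs' : ¬ Starts x (a⁻¹ * z) := by
      intro hs'
      have := hs'.norm
      omega
    have k := norm_sep hs hs'
    rw [(fm α).symm y b, fm_d, fm_d, fm_d, e]
    have e2 : (a⁻¹ * y)⁻¹ * (a⁻¹ * z) = y⁻¹ * z := by group
    rw [e2] at k
    omega

end Pool.Agent.U630.CC
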